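import Mathlib
import Pool.Agent.N751.FR.Asm1
import Pool.Agent.N401.FR.Rh3
import Pool.Agent.Y729.FW.Surj

/-!
# Frey's inequality over the points of degree `r` of every one-parameter family of elliptic curves

Frey's inequality says that `h_F(A) ≤ (n / 2 + ε) log N_A + c` for all abelian varieties `A` over
`ℚ` of dimension `n`, with the stable Faltings height. Let `K` be a number field and `r ≥ 1`. We
consider EVERY one-parameter family of elliptic curves over `K` with nonconstant modular invariant
`j = A / B ∈ K(T)`, and its fibres over the numbers `x` of DEGREE `r` over `K`, or rather ALL elliptic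
curves `F` over `M = K(x)` with modular invariant `j(x)` (all twists of the fibre), and their Weil
restrictions `Res_{M/ℚ} F`, abelian varieties over `ℚ` of dimension `n = r [K : ℚ]` with
`h_F(Res_{M/ℚ} F) = n h_F(F)` and conductor `N(f_F) |D_M| ^ 2` (Milne), a multiple of the product
`badNorm F` of the norms of the primes of bad reduction of `F`.

The bad places of the family are the places of `ℙ¹`, infinity included, at which all twists of the
family have bad reduction: the poles of `j`, the zeros of `j` of order not divisible by three and
the zeros of `j - 1728` of odd order. Let `γ` be their number (each counted with its degree) and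
`N` the degree of `j`. Then `N + 12 ≤ 6 γ`.

There is ONE exceptional set `E` of numbers of degree `r` over `K` (given by their minimal
polynomials), containing at most `2 exp ((r + 1) U - √U)` numbers of height at most `U`, whereas
there are at least `c exp ((r + 1) U)` such numbers, with the following property: for every family
whose bad places have degree at most `2 r + 1`, for every `ε > 0` there is a constant `C` such that

`h_F(Res_{M/ℚ} F) ≤ (N / (12 γ) + ε) log badNorm F + C`

for all `x ∉ E` of degree `r` and all `F`. Here `N / (12 γ) ≤ 1 / 2 - 1 / γ`, whereas Frey asks for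
the slope `n / 2 + ε`. If some bad places have a larger degree the same holds with the number of
those of degree at most `2 r + 1` in place of `γ`. Every family is covered as soon as `r` is large.

Proof: the exceptional set comes from a theorem of the same run on the truncated counting functions
of the points of degree `r` of the line (resultants are nearly squarefree); the primes at which a
bad place has a simple zero at `x` are bad for all twists; the height of `j(x)` is `N` times the one
of `x`; Silverman's formula; Wronskians (the theorem of Mason and Stothers with infinity).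
-/

set_option autoImplicit false

namespace Pool.Agent.Results.MP_c59389_nt.AllFamiliesDegreeR

open NumberField IsDedekindDomain Polynomial

/-- the modular invariant `j(τ) = E₄(τ) ^ 3 / Δ(τ) = 1 / q + 744 + ⋯` -/
noncomputable def jInv (τ : UpperHalfPlane) : ℂ :=
  ModularForm.E₄ τ ^ 3 / ModularForm.discriminant τ

/-- the archimedean term `- log (|Δ(τ)| (Im τ) ^ 6)` of the Faltings height -/
noncomputable def arch (τ : UpperHalfPlane) : ℝ :=
  -Real.log (‖ModularForm.discriminant τ‖ * τ.im ^ 6)

/-- Silverman's formula for the stable Faltings height (up to an additive constant which depends on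
the normalisation of the metric only) of an elliptic curve with modular invariant `j ∈ M`, where
`τ w` is a point of the upper half plane with modular invariant `j` at the infinite place `w`:
`12 [M : ℚ] h_F = ∑_v log max(|j|_v, 1) + ∑_w [M_w : ℝ] arch (τ w)`. -/
noncomputable def faltings {M : Type} [Field M] [NumberField M] (j : M)
    (τ : InfinitePlace M → UpperHalfPlane) : ℝ :=
  (∑ᶠ v : HeightOneSpectrum (𝓞 M), Real.log (max (FinitePlace.mk v j) 1) +
    ∑ w : InfinitePlace M, (w.mult : ℝ) * arch (τ w)) / (12 * Module.finrank ℚ M)

/-- the points `τ w` have modular invariant `j` -/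
def IsPeriod {M : Type} [Field M] [NumberField M] (j : M)
    (τ : InfinitePlace M → UpperHalfPlane) : Prop := ∀ w, jInv (τ w) = w.embedding j

/-- good reduction at `v`: some Weierstrass equation over `M` of the curve is integral at `v` and
has a discriminant which is a unit at `v` -/
def GoodAt {M : Type} [Field M] [NumberField M] (v : HeightOneSpectrum (𝓞 M))
    (F : WeierstrassCurve M) : Prop :=
  ∃ C : WeierstrassCurve.VariableChange M,
    v.valuation M (C • F).a₁ ≤ 1 ∧ v.valuation M (C • F).a₂ ≤ 1 ∧ v.valuation M (C • F).a₃ ≤ 1 ∧
    v.valuation M (C • F).a₄ ≤ 1 ∧ v.valuation M (C • F).a₆ ≤ 1 ∧ v.valuation M (C • F).Δ = 1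

/-- the product of the norms of the primes of bad reduction; it divides the norm of the
conductor -/
noncomputable def badNorm {M : Type} [Field M] [NumberField M] (F : WeierstrassCurve M) : ℝ :=
  ∏ᶠ v ∈ {v : HeightOneSpectrum (𝓞 M) | ¬ GoodAt v F}, (Ideal.absNorm v.asIdeal : ℝ)

/-- `p` is the minimal polynomial over `K` of a generator `x` of an extension `M / K` of degree `r`,
of height at most `U`. Mathlib's height of `x ∈ M` is `[M : ℚ]` times the absolute logarithmic
height. -/
def AtHeight {K : Type} [Field K] [NumberField K] (r : ℕ) (U : ℝ) (p : K[X]) : Prop :=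
  ∃ (M : Type) (_ : Field M) (_ : NumberField M) (_ : Algebra K M) (x : M),
    Module.finrank K M = r ∧ (minpoly K x).natDegree = r ∧ minpoly K x = p ∧
      Height.logHeight₁ x ≤ U

open Classical in
/-- the finite bad places of a family with modular invariant `j = A / B`: the monic irreducible
polynomials which divide `B`, or divide `A` with multiplicity not divisible by three, or divide
`A - 1728 B` with odd multiplicity -/
noncomputable def badPlaces {K : Type} [Field K] (A B : K[X]) : Finset K[X] :=
  (UniqueFactorizationMonoid.normalizedFactors (A * (A - 1728 * B) * B)).toFinset.filter fun P =>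
    P ∣ B ∨ ¬ 3 ∣ multiplicity P A ∨ ¬ 2 ∣ multiplicity P (A - 1728 * B)

/-- infinity is a bad place: `j = A / B` has a pole at infinity, or a zero of order not divisible by
three, or `j - 1728` has a zero of odd order (the differences are truncated) -/
def InfinityBad {K : Type} [Field K] (A B : K[X]) : Prop :=
  B.natDegree < A.natDegree ∨ ¬ 3 ∣ (B.natDegree - A.natDegree) ∨
    ¬ 2 ∣ (B.natDegree - (A - 1728 * B).natDegree)

open Classical in
/-- the number `γ` of the bad places, counted with their degrees, infinity included -/
noncomputable def places {K : Type} [Field K] (A B : K[X]) : ℕ :=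
  ∑ P ∈ badPlaces A B, P.natDegree + if InfinityBad A B then 1 else 0

open Classical in
/-- the number of the bad places of degree at most `d`, counted with their degrees -/
noncomputable def placesLe {K : Type} [Field K] (d : ℕ) (A B : K[X]) : ℕ :=
  ∑ P ∈ (badPlaces A B).filter (fun P => P.natDegree ≤ d), P.natDegree +
    if InfinityBad A B then 1 else 0

/-- **Frey's inequality for 100 % of the points of degree `r` of every one-parameter family.** -/
theorem result (K : Type) [Field K] [NumberField K] (r : ℕ) (hr : 1 ≤ r) :
    -- there are at least `c exp ((r + 1) U)` numbers of degree `r` and height at most `U`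
    (∃ c U₀ : ℝ, 0 < c ∧ ∀ U : ℝ, U₀ ≤ U → ∃ T : Finset K[X], (∀ p ∈ T, AtHeight r U p) ∧
      c * Real.exp ((r + 1) * U) ≤ T.card) ∧
    -- one exceptional set
    ∃ E : Set K[X],
      (∀ U : ℝ, 0 ≤ U → {p | p ∈ E ∧ AtHeight r U p}.Finite ∧
        ({p | p ∈ E ∧ AtHeight r U p}.ncard : ℝ) ≤ 2 * Real.exp ((r + 1) * U - √U)) ∧
      -- for every family
      ∀ A B : K[X], IsCoprime A B → B ≠ 0 → 1 ≤ max A.natDegree B.natDegree →
        max A.natDegree B.natDegree + 12 ≤ 6 * places A B ∧
        ((∀ P ∈ badPlaces A B, P.natDegree ≤ 2 * r + 1) →
          placesLe (2 * r + 1) A B = places A B ∧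
          ((max A.natDegree B.natDegree : ℕ) : ℝ) / (12 * places A B) ≤
            1 / 2 - 1 / places A B) ∧
        (1 ≤ placesLe (2 * r + 1) A B → ∀ ε : ℝ, 0 < ε → ∃ C : ℝ,
          ∀ (M : Type) [Field M] [NumberField M] [Algebra K M] (x : M),
            Module.finrank K M = r → (minpoly K x).natDegree = r → minpoly K x ∉ E →
            aeval x B ≠ 0 → ∀ F : WeierstrassCurve M, F.Δ ≠ 0 →
            F.c₄ ^ 3 / F.Δ = aeval x A / aeval x B →
            (∃ τ : InfinitePlace M → UpperHalfPlane, IsPeriod (F.c₄ ^ 3 / F.Δ) τ) ∧
            ∀ τ : InfinitePlace M → UpperHalfPlane, IsPeriod (F.c₄ ^ 3 / F.Δ) τ →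
              Module.finrank ℚ M * faltings (F.c₄ ^ 3 / F.Δ) τ ≤
                ((max A.natDegree B.natDegree : ℕ) / (12 * placesLe (2 * r + 1) A B) + ε) *
                  Real.log (badNorm F) + C) := by
  classical
  refine ⟨Pool.Agent.N31.FR.t K r hr, ?_⟩
  obtain ⟨E, hE1, hE2⟩ := Pool.Agent.N751.FR.exists_exc K r hr
  refine ⟨E, hE1, fun A B hc hB hN => ?_⟩
  have h3 : max A.natDegree B.natDegree + 12 ≤ 6 * places A B := by
    have h4 := Pool.Agent.N401.FR.t K A B hc hB hN
    have h5 : max A.natDegree B.natDegree ≤ Pool.Agent.N751.FR.wt A B := by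
      unfold Pool.Agent.N751.FR.wt
      omega
    have h6 : Pool.Agent.N751.FR.gam A B = places A B := rfl
    omega
  refine ⟨h3, fun hP => ⟨?_, ?_⟩, fun hg ε hε => ?_⟩
  · unfold placesLe places
    rw [Finset.filter_true_of_mem hP]
  · have h4 : (2 : ℝ) ≤ places A B := by
      have : 2 ≤ places A B := by omega
      exact_mod_cast this
    have h5 : ((max A.natDegree B.natDegree : ℕ) : ℝ) + 12 ≤ 6 * places A B := by
      exact_mod_cast h3
    rw [div_le_iff₀ (by positivity)]
    have h6 : (1 / 2 - 1 / (places A B : ℝ)) * (12 * places A B) = 6 * places A B - 12 := by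
      field_simp
      ring
    rw [h6]
    linarith
  · obtain ⟨C, hC⟩ := Pool.Agent.N751.FR.main1 K r hr E hE2 A B hc hN hg ε hε
    refine ⟨C, ?_⟩
    intro M _ _ _ x hM hx hxE hBx F hF hj
    refine ⟨?_, fun τ hτ => hC M x hM hx hxE hBx F τ hF hj hτ⟩
    have h := fun w : InfinitePlace M =>
      Pool.Agent.Y729.FW.j_surj (w.embedding (F.c₄ ^ 3 / F.Δ))
    choose τ hτ using h
    exact ⟨τ, hτ⟩

end Pool.Agent.Results.MP_c59389_nt.AllFamiliesDegreeR
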