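import Mathlib
import Pool.Agent.N365.FH.E

/-!
# Frey's inequality with its own slope `n / 2` in all large dimensions `n`, for the Weil restrictions
# of all but few members of every one-parameter family of elliptic curves

Frey's inequality says that `h_F(A) ≤ (n / 2 + ε') log N_A + c(ε', n)` for all abelian varieties `A`
over `ℚ` of dimension `n`, with the stable Faltings height.  Let `J = A / D` be any non-constant
rational function over `ℚ`, of degree `N`, for example the `j`-invariant of an elliptic curve over
`ℚ(T)`, and `ε > 0`.  Its poles may have any degree, so that squarefree values of `D` are not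
understood.  Among the about `B ^ 2` rational numbers `t` of height at most `B` all but `O(B ^ ε)`
(all but `O(B ^ (1 + ε))` if `J` has only one pole on the projective line), and among the integers
`|t| ≤ B` all but `O(B ^ ε)` if `D` is not constant, have the following property, with
`κ = (32 (N + 1) / ε + 1) / 12`:

for ALL number fields `L` and ALL elliptic curves `E` over `L` with invariant `J(t)` (all twists) the
Weil restriction `A = Res_{L/ℚ} E`, an abelian variety over `ℚ` of dimension `n = [L : ℚ]`, satisfies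
`h_F(A) + c₀ n ≤ κ log N_A`, and so `h_F(A) + c₀ n ≤ (n / 2) log N_A` if `n ≥ 2 κ`.

Here `c₀` is any given real number, which covers all normalisations of the metrics: there is no
`ε'` and no additive constant, and one exceptional set for all `L`, `n` and `E`.  For `n ≥ 2 κ` this is
the inequality asked for by Frey; for the other `n` the slope is `κ`.

Here `h_F(A) = n h_F(E)` (stable heights: over the algebraic closure `A` is the product of the
conjugates of `E`), and `12 n h_F(E)` is the sum of `log max(|j|_v, 1)` over the finite places `v`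
of `L` and of the archimedean terms. The conductor is `N_A = N(f_E) |D_L| ^ 2` (Milne), where the
part of `N(f_E)` prime to six is `multNorm E * addNorm E`.

Proof.  The theorem of `Pool.Agent.N365.HY.I` gives, outside the exceptional set, primes `l` with
product `P ≥ B ^ (ε / 8)` at which `J(t)` has a pole, so that all curves `E` have bad reduction at all
places of `L` above them.  Such a place `w` contributes `log N w` to the conductor of `E` and at least
`(e(w) - 1) log N w` to the discriminant of `L`, and `∑ e(w) log N w = n log l`.  So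
`log N_A ≥ n log P`, whereas `h_F(A) = O(n log P)`.
-/

set_option autoImplicit false
set_option linter.unusedSectionVars false

namespace Pool.Agent.Results.MP_c59389_nt.AllFieldsAllFamilies

open NumberField IsDedekindDomain Polynomial

/-- the modular invariant `j(τ) = E₄(τ) ^ 3 / Δ(τ) = 1 / q + 744 + ⋯` -/
noncomputable def jInv (τ : UpperHalfPlane) : ℂ :=
  ModularForm.E₄ τ ^ 3 / ModularForm.discriminant τ

/-- the archimedean term `- log (|Δ(τ)| (Im τ) ^ 6)` of the Faltings height -/
noncomputable def arch (τ : UpperHalfPlane) : ℝ :=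
  -Real.log (‖ModularForm.discriminant τ‖ * τ.im ^ 6)

/-- the points `τ w` have modular invariant `j` -/
def IsPeriod {L : Type} [Field L] [NumberField L] (j : L)
    (τ : InfinitePlace L → UpperHalfPlane) : Prop := ∀ w, jInv (τ w) = w.embedding j

/-- the stable Faltings height of the Weil restriction `A = Res_{L/ℚ} E` of an elliptic curve `E`
over `L` of invariant `j`, where the points `τ w` have invariant `j` (up to an absolute multiple of
`[L : ℚ]` which depends on the normalisation of the metric only): `12 h_F(A)` is the sum of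
`log max(|j|_v, 1)` over the finite places `v` of `L`, the stable discriminant of `E`, and of the
archimedean terms -/
noncomputable def stableHeight {L : Type} [Field L] [NumberField L] (j : L)
    (τ : InfinitePlace L → UpperHalfPlane) : ℝ :=
  (∑ᶠ v : HeightOneSpectrum (𝓞 L), Real.log (max (FinitePlace.mk v j) 1) +
    ∑ w : InfinitePlace L, (w.mult : ℝ) * arch (τ w)) / 12

/-- good reduction at `v`: some Weierstrass equation over `L` of the curve is integral at `v` and
has a discriminant which is a unit at `v` -/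
def GoodAt {L : Type} [Field L] [NumberField L] (v : HeightOneSpectrum (𝓞 L))
    (E : WeierstrassCurve L) : Prop :=
  ∃ C : WeierstrassCurve.VariableChange L,
    v.valuation L (C • E).a₁ ≤ 1 ∧ v.valuation L (C • E).a₂ ≤ 1 ∧ v.valuation L (C • E).a₃ ≤ 1 ∧
    v.valuation L (C • E).a₄ ≤ 1 ∧ v.valuation L (C • E).a₆ ≤ 1 ∧ v.valuation L (C • E).Δ = 1

/-- semistable (good or multiplicative) reduction at `v`: some Weierstrass equation over `L` of the
curve is integral at `v` and its discriminant or its invariant `c₄` is a unit at `v` -/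
def SemistableAt {L : Type} [Field L] [NumberField L] (v : HeightOneSpectrum (𝓞 L))
    (E : WeierstrassCurve L) : Prop :=
  ∃ C : WeierstrassCurve.VariableChange L,
    v.valuation L (C • E).a₁ ≤ 1 ∧ v.valuation L (C • E).a₂ ≤ 1 ∧ v.valuation L (C • E).a₃ ≤ 1 ∧
    v.valuation L (C • E).a₄ ≤ 1 ∧ v.valuation L (C • E).a₆ ≤ 1 ∧
    (v.valuation L (C • E).Δ = 1 ∨ v.valuation L (C • E).c₄ = 1)

/-- the product of the norms of the primes of multiplicative reduction not dividing six -/
noncomputable def multNorm {L : Type} [Field L] [NumberField L] (E : WeierstrassCurve L) : ℝ :=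
  ∏ᶠ v ∈ {v : HeightOneSpectrum (𝓞 L) |
    ¬ GoodAt v E ∧ SemistableAt v E ∧ v.valuation L 6 = 1}, (Ideal.absNorm v.asIdeal : ℝ)

/-- the product of the squares of the norms of the primes of additive reduction not dividing six -/
noncomputable def addNorm {L : Type} [Field L] [NumberField L] (E : WeierstrassCurve L) : ℝ :=
  ∏ᶠ v ∈ {v : HeightOneSpectrum (𝓞 L) | ¬ SemistableAt v E ∧ v.valuation L 6 = 1},
    (Ideal.absNorm v.asIdeal : ℝ) ^ 2

/-- a factor of the conductor of `A = Res_{L/ℚ} E`: the part prime to six of the norm of the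
conductor of `E`, times the square of the discriminant of `L` -/
noncomputable def cond {L : Type} [Field L] [NumberField L] (E : WeierstrassCurve L) : ℝ :=
  multNorm E * addNorm E * |(discr L : ℝ)| ^ 2

/-- For all number fields `L`, `n = [L : ℚ]`, and all elliptic curves `E` over `L` of invariant `j`
the Weil restriction `A = Res_{L/ℚ} E` satisfies `h_F(A) + c₀ n ≤ κ log N_A`, and
`h_F(A) + c₀ n ≤ (n / 2) log N_A` if `n ≥ 2 κ`. -/
def Frey (κ c₀ : ℝ) (j : ℚ) : Prop :=
  ∀ (L : Type) [Field L] [NumberField L] (E : WeierstrassCurve L)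
    (τ : InfinitePlace L → UpperHalfPlane),
    E.Δ ≠ 0 → E.c₄ ^ 3 / E.Δ = (j : L) → IsPeriod (j : L) τ →
      stableHeight (j : L) τ + c₀ * Module.finrank ℚ L ≤ κ * Real.log (cond E) ∧
      (2 * κ ≤ Module.finrank ℚ L →
        stableHeight (j : L) τ + c₀ * Module.finrank ℚ L ≤
          (Module.finrank ℚ L : ℝ) / 2 * Real.log (cond E))

/-- `A / D` is a rational function of degree `N ≥ 1` in lowest terms -/
structure IsFunction (N : ℕ) (A D : ℤ[X]) : Prop where
  pos : 1 ≤ N
  deg_num : A.natDegree ≤ N
  deg_den : D.natDegree ≤ N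
  deg : A.natDegree = N ∨ D.natDegree = N
  coprime : IsCoprime (A.map (Int.castRingHom ℚ)) (D.map (Int.castRingHom ℚ))

/-- the number of the different poles on the projective line over `ℂ` of the function `A / D` of
degree `N`: the roots of `D`, and infinity if `deg D < N` -/
noncomputable def poleCount (N : ℕ) (D : ℤ[X]) : ℕ :=
  (D.map (Int.castRingHom ℂ)).roots.toFinset.card + if D.natDegree < N then 1 else 0

/-- the value of the polynomial `f` at the rational number `t` -/
noncomputable def value (f : ℤ[X]) (t : ℚ) : ℚ := f.eval₂ (Int.castRingHom ℚ) t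

/-- `t` is not a pole of `J = A / D` and Frey's inequality holds for the invariant `J(t)` -/
def HoldsAt (κ c₀ : ℝ) (A D : ℤ[X]) (t : ℚ) : Prop :=
  value D t ≠ 0 ∧ Frey κ c₀ (value A t / value D t)

theorem follows (N : ℕ) {ε : ℝ} (hε : 0 < ε) (c₀ : ℝ) :
    Pool.Agent.N365.FH.Follows (ε / 8) (N + 1)
      (fun _ j => Frey ((32 * (N + 1) / ε + 1) / 12) c₀ j) := by
  obtain ⟨B₀, hB₀⟩ := Pool.Agent.N365.FH.frey_stable N hε c₀
  refine ⟨B₀, fun B hB hB1 x y hM hx hy L _ _ E τ hE hj hτ => ?_⟩
  have hj' : E.c₄ ^ 3 / E.Δ = (x : L) / y := by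
    rw [hj]
    push_cast
    rfl
  have hτ' : Pool.Agent.TH876.FH.IsPeriod (E.c₄ ^ 3 / E.Δ) τ := by
    rw [hj]
    exact hτ
  obtain ⟨key0, key⟩ := hB₀ B hB hB1 x y hM hx hy L E τ hE hj' hτ'
  have hdL1 : (1 : ℝ) ≤ |(discr L : ℝ)| := by
    have h1 : (1 : ℤ) ≤ |discr L| := Int.one_le_abs (discr_ne_zero L)
    exact_mod_cast h1
  have hm : 0 < multNorm E := Pool.Agent.Y733.FF.multN_pos E hE
  have ha : 0 < addNorm E := Pool.Agent.Y733.FF.addN_pos E hE
  have hr : 0 < |(discr L : ℝ)| := by linarith
  have hcond : Real.log (cond E) = Real.log (multNorm E) + Real.log (addNorm E) +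
      2 * Real.log |(discr L : ℝ)| := by
    unfold cond
    rw [Real.log_mul (mul_pos hm ha).ne' (pow_pos hr 2).ne', Real.log_mul hm.ne' ha.ne',
      Real.log_pow]
    push_cast
    ring
  have h1 : stableHeight (((x : ℚ) / y : ℚ) : L) τ + c₀ * Module.finrank ℚ L ≤
      (32 * (N + 1) / ε + 1) / 12 * Real.log (cond E) := by
    rw [hcond, ← hj]
    exact key
  have h0 : 0 ≤ Real.log (cond E) := by
    rw [hcond]
    exact key0
  refine ⟨h1, fun hn => h1.trans (mul_le_mul_of_nonneg_right ?_ h0)⟩
  linarith

/-- **Theorem.** For every rational function `J = A / D` of degree `N` over `ℚ`, every `ε > 0` and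
every `c₀`, all rational numbers `t` of height at most `B` with at most `C B ^ (1 + ε)` exceptions, with
at most `C B ^ ε` exceptions if the function has at least two poles, and all integers `|t| ≤ B` with
at most `C B ^ ε` exceptions if `D` is not constant, satisfy Frey's inequality for all number fields
and all twists at once, with the slope `κ = (32 (N + 1) / ε + 1) / 12` in all dimensions `n` and with
the slope `n / 2` in the dimensions `n ≥ 2 κ`. -/
theorem result (N : ℕ) (A D : ℤ[X]) (h : IsFunction N A D) (ε c₀ : ℝ) (hε : 0 < ε) :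
    (∃ C : ℝ, ∀ B : ℕ, 1 ≤ B → ({t : ℚ | |t.num| ≤ B ∧ t.den ≤ B ∧
      ¬ HoldsAt ((32 * (N + 1) / ε + 1) / 12) c₀ A D t}.ncard : ℝ) ≤ C * (B : ℝ) ^ (1 + ε)) ∧
    (2 ≤ poleCount N D → ∃ C : ℝ, ∀ B : ℕ, 1 ≤ B → ({t : ℚ | |t.num| ≤ B ∧ t.den ≤ B ∧
      ¬ HoldsAt ((32 * (N + 1) / ε + 1) / 12) c₀ A D t}.ncard : ℝ) ≤ C * (B : ℝ) ^ ε) ∧
    (1 ≤ D.natDegree → ∃ C : ℝ, ∀ B : ℕ, 1 ≤ B → ({t : ℤ | |t| ≤ B ∧
      ¬ HoldsAt ((32 * (N + 1) / ε + 1) / 12) c₀ A D t}.ncard : ℝ) ≤ C * (B : ℝ) ^ ε) := by
  have hR : Pool.Agent.N365.LS.Rat N A D := ⟨h.pos, h.deg_num, h.deg_den, h.deg, h.coprime⟩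
  have hpole : poleCount N D = Pool.Agent.N365.LS.poleCount N D := rfl
  obtain ⟨C, hC⟩ := Pool.Agent.N365.FH.few_rat hR hε (follows N hε c₀)
  refine ⟨⟨max C 0, fun B hB => ?_⟩, fun h2 => ⟨C, fun B hB => ?_⟩,
    fun hD => Pool.Agent.N365.FH.few_int hR hD hε (follows N hε c₀)⟩
  · have hB1 : (1 : ℝ) ≤ B := by exact_mod_cast hB
    refine (hC B hB).trans (mul_le_mul (le_max_left _ _) ?_ (by positivity) (le_max_right _ _))
    refine Real.rpow_le_rpow_of_exponent_le hB1 ?_
    split_ifs <;> linarith
  · have h3 := hC B hB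
    rw [if_pos (by rw [← hpole]; exact h2)] at h3
    exact h3

end Pool.Agent.Results.MP_c59389_nt.AllFieldsAllFamilies
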