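import Pool.Agent.N733.TG.K
import Pool.Agent.Results.MP_c59389_nt.StarshapedFrey

/-!
# Frey's inequality for all Weil restrictions with height near functions of the values of multiplicative functions

Let `f` be a positive multiplicative function of at most polynomial growth such that `f p ≤ M p` for the large primes `p`,
with different values at different large primes; for example Euler's function or the sum of the divisors. Let `n ≥ 2`,
`κ > 0`, `α > 0`, `D ≥ 1` and `D e(n) / ((n + 1) κ) + θ < 1`, where `e 2 = e 3 = 2 / 3` and `e n = O (log ^ 2 n)`. For every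
`c` and `U`, for all `m ≤ N` but `N / (log N)^U`, Frey's inequality `h_F(A) ≤ κ log N_A - c` holds for ALL Weil restrictions
`A = Res_{L/ℚ} E`, where `L` is any number field of degree `n` and `E` an elliptic curve over `L` with full two-torsion, such
that `H = exp (h_F(A))` satisfies `|H ^ (n + 1) - α f(m) ^ D| ≤ f(m) ^ θ`. For Frey's slope `κ = n / 2` and `n = 2` the
condition is `2 D / 9 + θ < 1`, so `D` may be as large as `4.4`. More generally `G (f m)` takes the place of `α f(m)^D`, where
`G` is any function with steps bounded below by a positive constant and growth at most `v^D`. The values of `f` are in general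
taken with very large multiplicities, and so this does not follow from the size of the exceptional set.

Its size is bounded by the starting theorem `WeilRestrictions` of this problem (in the form `count` of the starting file
`StarshapedFrey`).
-/

set_option autoImplicit false

namespace Pool.Agent.Results.MP_c59389_nt.MultiplicativeValues

open NumberField
open WeilRestrictions (jInv faltings FullTwo badNorm Violators expo IsPeriod)
open StarshapedFrey (hF ht Exc count Num)
open Pool.Agent.N733.TG (LM Expanding lm_totient lm_sigma keep_windows expanding_pow)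

/-- **Frey's inequality near the values of multiplicative functions.** There is a function `e ≥ 0` with
`e n ≤ max (2 / 3) (expo n / 2)` for `n ≥ 2` (so `e 2 ≤ 2 / 3`, `e 3 ≤ 2 / 3`) and `e n = O (log ^ 2 n)` such that for each
section `P` of the modular invariant (used to write down Faltings heights), all `f` multiplicative and positive, of at most
polynomial growth, with `f p ≤ M p` at the large primes and injective there, all `G` with steps `≥ a > 0` and growth at most
`v^D`, all `n ≥ 2`, `κ > 0` and `θ ≥ 0` with `D e(n) / ((n + 1) κ) + θ < 1`, and all `c`, `U`: for all large `N` and all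
`m ≤ N` but `N / (log N)^U`, for ALL number fields `L` of degree `n` (in the algebraic closure of `ℚ`) and ALL elliptic curves
`W` over `L` with full two-torsion for which `h = n h_F(W)` satisfies `|exp (h) ^ (n + 1) - G (f m)| ≤ f(m) ^ θ` one has
`h ≤ κ log (badNorm W |D_L| ^ 2) - c`. Euler's function and the sum of the divisors are examples of such functions `f`, and
`α v^D` with `α > 0`, `D ≥ 1` is an example of `G`. -/
theorem result :
    (∃ e : ℕ → ℝ, (∀ n, 0 ≤ e n) ∧ (∀ n : ℕ, 2 ≤ n → e n ≤ max (2 / 3) (expo n / 2)) ∧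
      (∀ c : ℝ, 1 / (16 * (Real.log 2) ^ 2) < c → ∀ᶠ n : ℕ in Filter.atTop, e n ≤ c * (Real.log n) ^ 2) ∧
      ∀ P : ℂ → UpperHalfPlane, (∀ z, jInv (P z) = z) → ∀ f : ℕ → ℕ, LM f → ∀ (G : ℕ → ℝ) (D : ℝ), Expanding G D →
        ∀ n : ℕ, 2 ≤ n → ∀ κ θ : ℝ, 0 < κ → 0 ≤ θ → D * (e n / ((n + 1) * κ)) + θ < 1 →
        ∀ (c : ℝ) (U : ℕ), ∃ N₀ : ℕ, ∀ N : ℕ, N₀ ≤ N →
          ({m : ℕ | 1 ≤ m ∧ m ≤ N ∧
            ¬ ∀ (L : IntermediateField ℚ (AlgebraicClosure ℚ)) (_ : NumberField L) (W : WeierstrassCurve L),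
              Module.finrank ℚ L = n → W.Δ ≠ 0 → FullTwo W →
              |Real.exp (hF P (W.c₄ ^ 3 / W.Δ)) ^ (n + 1) - G (f m)| ≤ (f m : ℝ) ^ θ →
                hF P (W.c₄ ^ 3 / W.Δ) ≤ κ * Real.log (badNorm W * |(NumberField.discr L : ℝ)| ^ 2) - c}.ncard : ℝ) ≤
            N / Real.log N ^ U) ∧
    (LM Nat.totient ∧ LM (fun m => ∑ d ∈ m.divisors, d)) ∧
    ∀ α D : ℝ, 0 < α → 1 ≤ D → Expanding (fun v => α * (v : ℝ) ^ D) D := by
  obtain ⟨e, he1, he2, he3⟩ := WeilRestrictions.result.1
  refine ⟨⟨fun n => max (e n) 0, fun n => le_max_right _ _, fun n hn => max_le (he2 n hn) ?_,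
    fun c hc => ?_, fun P hP f hf G D hG n hn κ θ hκ hθ h1 c U => ?_⟩, ⟨lm_totient, lm_sigma⟩,
    fun α D hα hD => expanding_pow hα hD⟩
  · exact le_trans (by norm_num) (le_max_left _ _)
  · have hc0 : 0 < c := lt_trans (by
      have := Real.log_pos (by norm_num : (1 : ℝ) < 2)
      positivity) hc
    filter_upwards [he1 c hc] with n hn
    exact max_le hn (by positivity)
  · obtain ⟨N₀, hN₀⟩ := keep_windows (Exc P n κ (-c)) (fun p => Real.exp (ht P p) ^ (n + 1)) hf hG
      (s := max (e n) 0 / ((n + 1) * κ)) (κ := θ) (div_nonneg (le_max_right _ _) (by positivity)) hθ h1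
      (fun ε hε => count hP hn hκ (fun δ hδ => he3 n hn κ (-c) δ hκ hδ) ε hε) U
    refine ⟨N₀, fun N hN => le_trans ?_ (hN₀ N hN)⟩
    have hfin : {m : ℕ | 1 ≤ m ∧ m ≤ N ∧ ∃ p ∈ Exc P n κ (-c),
        |Real.exp (ht P p) ^ (n + 1) - G (f m)| ≤ (f m : ℝ) ^ θ}.Finite := by
      apply (Set.finite_Icc 1 N).subset
      intro m hm
      exact ⟨hm.1, hm.2.1⟩
    have hsub : {m : ℕ | 1 ≤ m ∧ m ≤ N ∧
            ¬ ∀ (L : IntermediateField ℚ (AlgebraicClosure ℚ)) (_ : NumberField L) (W : WeierstrassCurve L),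
              Module.finrank ℚ L = n → W.Δ ≠ 0 → FullTwo W →
              |Real.exp (hF P (W.c₄ ^ 3 / W.Δ)) ^ (n + 1) - G (f m)| ≤ (f m : ℝ) ^ θ →
                hF P (W.c₄ ^ 3 / W.Δ) ≤ κ * Real.log (badNorm W * |(NumberField.discr L : ℝ)| ^ 2) - c} ⊆
        {m : ℕ | 1 ≤ m ∧ m ≤ N ∧ ∃ p ∈ Exc P n κ (-c),
          |Real.exp (ht P p) ^ (n + 1) - G (f m)| ≤ (f m : ℝ) ^ θ} := by
      rintro m ⟨h2, h3, h4⟩
      push Not at h4
      obtain ⟨L, hL, W, hd, hW1, hW2, hw, hcon⟩ := h4
      refine ⟨h2, h3, ⟨⟨L, hL⟩, W.c₄ ^ 3 / W.Δ⟩, ⟨hd, W, hW1, hW2, rfl, ?_⟩, hw⟩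
      show κ * Real.log (badNorm W * |(NumberField.discr L : ℝ)| ^ 2) + -c < hF P (W.c₄ ^ 3 / W.Δ)
      linarith
    exact_mod_cast Set.ncard_le_ncard hsub hfin

end Pool.Agent.Results.MP_c59389_nt.MultiplicativeValues
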